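import Pool.Agent.Run7.h671.Post

/-!
# The log-rank conjecture for matrices whose set of rows is closed under a Boolean operation
-/

set_option autoImplicit false

namespace Pool.Agent.Results.MP_e5d384_lc.ClosedRows

open Pool.Agent.Q174.TD Pool.Agent.Run7.h671

/-- `F` has a deterministic two-party protocol with exactly `c` bits. (Protocols exactly as in the
frozen statement S15531: `t` is the transcript so far, `owner t` says who speaks, and the answer is
a function of the transcript.) -/
def HasProtocol {X Y : Type} (F : X → Y → Bool) (c : ℕ) : Prop :=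
  ∃ (owner : List Bool → Bool) (a : List Bool → X → Bool)
      (b : List Bool → Y → Bool) (out : List Bool → Bool),
      ∀ x y, out (Nat.iterate
        (fun t : List Bool => t ++ [if owner t then a t x else b t y]) c []) = F x y

/-- the real rank of the communication matrix of `F` -/
noncomputable def realRank {X Y : Type} [Fintype X] [Fintype Y] (F : X → Y → Bool) : ℕ :=
  (Matrix.of (fun (x : X) (y : Y) => if F x y then (1 : ℝ) else 0)).rank

/-- the Boolean operation `f` is constant, or a coordinate, or the negation of a coordinate -/
def EssentiallyUnary {k : ℕ} (f : (Fin k → Bool) → Bool) : Prop :=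
  (∃ b, ∀ a, f a = b) ∨ (∃ j, ∀ a, f a = a j) ∨ (∃ j, ∀ a, f a = !a j)

/-- the set of rows of `F` is closed under the operation `f`, applied to each coordinate -/
def RowsClosed {X Y : Type} {k : ℕ} (f : (Fin k → Bool) → Bool) (F : X → Y → Bool) : Prop :=
  ∀ x : Fin k → X, ∃ x', ∀ y, F x' y = f (fun j => F (x j) y)

/-- Any index of the columns of a matrix with few distinct columns. -/
lemma col_index {X Y : Type*} [Fintype X] [Fintype Y] (F : X → Y → Bool) (N : ℕ)
    (h : ncol F ≤ N) :
    ∃ q : Y → ℕ, (∀ y, q y < N) ∧ ∀ y y', q y = q y' → ∀ x, F x y = F x y' := by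
  classical
  let S := Set.range (fun y x => F x y)
  let e := Finite.equivFin S
  refine ⟨fun y => (e ⟨fun x => F x y, y, rfl⟩ : ℕ), fun y => ?_, fun y y' hyy x => ?_⟩
  · refine lt_of_lt_of_le (e ⟨fun x => F x y, y, rfl⟩).2 ?_
    rw [Nat.card_coe_set_eq]
    exact h
  · have h1 : e ⟨fun x => F x y, y, rfl⟩ = e ⟨fun x => F x y', y', rfl⟩ := Fin.ext hyy
    have h2 := e.injective h1
    exact congrFun (Subtype.ext_iff.1 h2) x

/-- **The log-rank conjecture for matrices with closed sets of rows; a dichotomy.**

(1) Let the rows of the Boolean matrix `F` be divided into `t` parts. Suppose that for each part `i`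
and each column `y` there is a `k`-ary Boolean operation `f i y` which is not essentially unary, so
that the rows of part `i` are closed under the operation acting in column `y` as `f i y`. Then `F`
has a deterministic protocol with at most `log₂ (rank F + 1) + log₂ t + 2 ^ k + 4` bits.

(2) Conversely, the essentially unary operations have to be excluded: every Boolean matrix `G`
is a submatrix of a Boolean matrix with real rank at most `rank G + 1` whose set of rows is closed
under all of them. -/
theorem result :
    (∀ (X Y : Type) [Fintype X] [Fintype Y] (F : X → Y → Bool) (t k : ℕ) (part : X → Fin t)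
      (f : Fin t → Y → (Fin k → Bool) → Bool),
      (∀ i y, ¬ EssentiallyUnary (f i y)) →
      (∀ (i : Fin t) (x : Fin k → X), (∀ j, part (x j) = i) →
        ∃ x', part x' = i ∧ ∀ y, F x' y = f i y (fun j => F (x j) y)) →
      ∃ c : ℕ, HasProtocol F c ∧
        (c : ℝ) ≤ Real.logb 2 (realRank F + 1) + Real.logb 2 t + 2 ^ k + 4) ∧
    (∀ (X Y : Type) [Fintype X] [Fintype Y] (G : X → Y → Bool),
      ∃ (X' : Type) (_ : Fintype X') (F : X' → Y → Bool) (e : X → X'),
        (∀ x y, F (e x) y = G x y) ∧
        (∀ (k : ℕ) (f : (Fin k → Bool) → Bool), EssentiallyUnary f → RowsClosed f F) ∧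
        realRank F ≤ realRank G + 1) := by
  classical
  constructor
  · intro X Y _ _ F t k part f hf hcl
    -- the columns of one part
    have hcol : ∀ i : Fin t, ∃ q : Y → ℕ, (∀ y, q y < 2 ^ (2 ^ k + (1 + Nat.clog 2 (realRank F + 1)))) ∧
        ∀ y y', q y = q y' → ∀ x, part x = i → F x y = F x y' := by
      intro i
      have h1 : ∀ g : (Fin k → Bool) → Bool, ∃ q : Y → ℕ, (∀ y, q y < 2 * realRank F + 2) ∧
          ∀ y y', f i y = g → f i y' = g → q y = q y' → ∀ x, part x = i → F x y = F x y' := by
        intro g
        by_cases hg : ∃ y, f i y = g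
        · let F' : {x // part x = i} → {y // f i y = g} → Bool := fun x y => F x.1 y.1
          have h2 : ncol F' ≤ 2 * (rM F').rank + 2 := by
            apply ncol_closed g
            · obtain ⟨y, rfl⟩ := hg
              exact hf i y
            · intro x
              obtain ⟨x', hx', h3⟩ := hcl i (fun j => (x j).1) (fun j => (x j).2)
              refine ⟨⟨x', hx'⟩, fun y => ?_⟩
              have := h3 y.1
              rw [y.2] at this
              exact this
          have h3 : (rM F').rank ≤ realRank F := by
            have : rM F' = (Matrix.of (fun (x : X) (y : Y) => if F x y then (1 : ℝ) else 0)).submatrix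
                Subtype.val Subtype.val := by
              ext x y
              rfl
            rw [this]
            exact Matrix.rank_submatrix_le _ _ _
          obtain ⟨q, hq, hq'⟩ := col_index F' (2 * realRank F + 2) (by omega)
          refine ⟨fun y => if h : f i y = g then q ⟨y, h⟩ else 0, fun y => ?_, ?_⟩
          · dsimp only
            split_ifs with h
            · exact hq _
            · omega
          · intro y y' hy hy' hqq x hx
            simp only [hy, hy', dif_pos] at hqq
            exact hq' ⟨y, hy⟩ ⟨y', hy'⟩ hqq ⟨x, hx⟩
        · refine ⟨fun _ => 0, fun _ => Nat.succ_pos _, fun y y' hy => ?_⟩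
          exact absurd ⟨y, hy⟩ hg
      choose q hq hq' using h1
      let E : ((Fin k → Bool) → Bool) ≃ Fin (Fintype.card ((Fin k → Bool) → Bool)) :=
        Fintype.equivFin _
      have hE : Fintype.card ((Fin k → Bool) → Bool) = 2 ^ 2 ^ k := by simp
      let P := finProdFinEquiv (m := Fintype.card ((Fin k → Bool) → Bool)) (n := 2 * realRank F + 2)
      refine ⟨fun y => (P (E (f i y), ⟨q (f i y) y, hq _ _⟩) : ℕ), fun y => ?_, ?_⟩
      · refine lt_of_lt_of_le (P (E (f i y), ⟨q (f i y) y, hq _ _⟩)).2 ?_
        rw [hE, pow_add, pow_add, pow_one]
        gcongr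
        have := Nat.le_pow_clog (b := 2) (by norm_num) (realRank F + 1)
        omega
      · intro y y' hyy x hx
        have h2 := P.injective (Fin.ext hyy)
        simp only [Prod.mk.injEq, Fin.mk.injEq] at h2
        have h3 : f i y = f i y' := E.injective h2.1
        refine hq' (f i y) y y' rfl h3.symm ?_ x hx
        rw [h2.2, h3]
    choose q hq hq' using hcol
    have hP : Prot F (1 + (2 ^ k + (1 + Nat.clog 2 (realRank F + 1))) + Nat.clog 2 t)
        Set.univ Set.univ := by
      apply Prot.alice_index (Nat.clog 2 t) (fun x => (part x : ℕ)) 0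
      · intro x _
        refine ⟨Nat.zero_le _, ?_⟩
        rw [zero_add]
        exact lt_of_lt_of_le (part x).2 (Nat.le_pow_clog (by norm_num) t)
      · intro i
        by_cases hi : i < t
        · apply Prot.bob_index _ (q ⟨i, hi⟩) 0
          · intro y _
            exact ⟨Nat.zero_le _, by rw [zero_add]; exact hq _ y⟩
          · intro m
            apply prot_simple
            right
            rintro x ⟨-, hx⟩ y ⟨-, hy⟩ y' ⟨-, hy'⟩
            exact hq' ⟨i, hi⟩ y y' (Eq.trans hy (Eq.symm hy')) x (Fin.ext hx)
        · apply Prot.const _ _ _ true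
          rintro x ⟨-, hx⟩
          exfalso
          apply hi
          have : (part x : ℕ) = i := hx
          rw [← this]
          exact (part x).2
    obtain ⟨owner, a, b, out, h⟩ := hP.protocol
    refine ⟨_, ⟨owner, a, b, out, fun x y => h x (Set.mem_univ _) y (Set.mem_univ _)⟩, ?_⟩
    have hl : ∀ n : ℕ, (Nat.clog 2 (n + 1) : ℝ) ≤ Real.logb 2 ((n + 1 : ℕ) : ℝ) + 1 := by
      intro n
      have h1 : (Nat.clog 2 (n + 1)) = ⌈Real.logb 2 ((n + 1 : ℕ) : ℝ)⌉₊ := by
        have := Real.natCeil_logb_natCast 2 (n + 1)
        push_cast at this ⊢
        exact this.symm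
      rw [h1]
      exact (Nat.ceil_lt_add_one (Real.logb_nonneg (by norm_num) (by push_cast; linarith [Nat.cast_nonneg (α := ℝ) n]))).le
    have h1 := hl (realRank F)
    have h2 : (Nat.clog 2 t : ℝ) ≤ Real.logb 2 (t : ℝ) + 1 := by
      rcases t with _ | n
      · simp
      · exact hl n
    push_cast at h1 ⊢
    linarith
  · intro X Y _ _ G
    let F : Option X × Bool → Y → Bool := fun p y => match p with
      | (some x, b) => xor b (G x y)
      | (none, b) => b
    refine ⟨Option X × Bool, inferInstance, F, fun x => (some x, false), ?_, ?_, ?_⟩
    · intro x y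
      show xor false (G x y) = G x y
      simp
    · intro k f hf x
      rcases hf with ⟨b, hb⟩ | ⟨j, hj⟩ | ⟨j, hj⟩
      · exact ⟨(none, b), fun y => (hb _).symm⟩
      · exact ⟨x j, fun y => (hj (fun j => F (x j) y)).symm⟩
      · refine ⟨((x j).1, !(x j).2), fun y => ?_⟩
        rw [hj]
        rcases x j with ⟨_ | x', b⟩
        · rfl
        · show xor (!b) (G x' y) = !(xor b (G x' y))
          cases b <;> cases G x' y <;> rfl
    · show (Matrix.of (fun (x : Option X × Bool) (y : Y) => if F x y then (1 : ℝ) else 0)).rank ≤
        (Matrix.of (fun (x : X) (y : Y) => if G x y then (1 : ℝ) else 0)).rank + 1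
      rw [Matrix.rank_eq_finrank_span_cols, Matrix.rank_eq_finrank_span_cols]
      let T : (X → ℝ) →ₗ[ℝ] (Option X × Bool → ℝ) :=
        { toFun := fun v p => match p with
            | (some x, b) => (if b then -1 else 1) * v x
            | (none, _) => 0
          map_add' := by
            intro v w
            funext p
            rcases p with ⟨_ | x, b⟩
            · simp
            · simp [mul_add]
          map_smul' := by
            intro r v
            funext p
            rcases p with ⟨_ | x, b⟩
            · simp
            · simp }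
      let w : Option X × Bool → ℝ := fun p => if p.2 then 1 else 0
      have h1 : Submodule.span ℝ (Set.range
          (Matrix.of (fun (x : Option X × Bool) (y : Y) => if F x y then (1 : ℝ) else 0)).col) ≤
          (Submodule.span ℝ (Set.range
            (Matrix.of (fun (x : X) (y : Y) => if G x y then (1 : ℝ) else 0)).col)).map T ⊔
            Submodule.span ℝ {w} := by
        rw [Submodule.span_le]
        rintro _ ⟨y, rfl⟩
        have e : (Matrix.of (fun (x : Option X × Bool) (y : Y) => if F x y then (1 : ℝ) else 0)).col y
            = T ((Matrix.of (fun (x : X) (y : Y) => if G x y then (1 : ℝ) else 0)).col y) + w := by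
          funext p
          rcases p with ⟨_ | x, b⟩
          · cases b <;> simp [T, w, F, Matrix.col]
          · cases b <;> cases hG : G x y <;> simp [T, w, F, Matrix.col, hG]
        rw [e]
        apply Submodule.add_mem_sup
        · exact Submodule.mem_map_of_mem (Submodule.subset_span ⟨y, rfl⟩)
        · exact Submodule.subset_span rfl
      refine (Submodule.finrank_mono h1).trans
        ((Submodule.finrank_add_le_finrank_add_finrank _ _).trans ?_)
      gcongr
      · exact Submodule.finrank_map_le _ _
      · exact (finrank_span_le_card ({w} : Set (Option X × Bool → ℝ))).trans (by simp)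

end Pool.Agent.Results.MP_e5d384_lc.ClosedRows
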