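import Pool.Agent.Run7.h515.LR.Gen

/-!
# The log-rank conjecture for low-rank perturbations of low-degree matrices on locally convex families

Let `P : Y → Finset (Fin d)` be a map whose image is closed under intersection and locally a convex
geometry (if `D ⊂ C` are in the image, so is `C` minus some element outside of `D`); for instance the
image can consist of all subsets, of the faces of a simplicial complex or of the ideals of a poset.
If the rows of the Boolean matrix `F` are, modulo a space of dimension `k`, polynomials of degree at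
most `j` in the `d` coordinates of `P y`, then `F` has a deterministic protocol with
`(j + 2) k + polylog (d ^ j)` bits.

In particular this holds, with `j = 1`, if the rank of `F` is at most `d + k` and the patterns of the
columns on some `d` rows are such a family. If the `d` rows are shattered (all patterns occur), then
`3 k + 2 log₂ (d + 1) + O(1)` bits are enough: the log-rank conjecture holds for the matrices whose
VC dimension is at least the rank minus a polylogarithmic term (and, as is well known and easy, for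
those whose VC dimension is at most polylogarithmic).

Idea of the proof. On a locally convex family a real function whose differences along the
`(j + 1)`-dimensional cubes of the family vanish is a polynomial of degree at most `j`. The
differences of a Boolean function are small integers, so that `k` suitable cubes show that there are
at most `2 ^ ((j + 2) k)` classes of rows modulo these polynomials. Inside a class the rows differ
from a fixed row by a polynomial with values `-1, 0, 1`, whose square has degree `2 j`, and the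
starting theorem about affine functions on intersection-closed families (`Q174.AF`) applies.
-/

set_option autoImplicit false

namespace Pool.Agent.Results.MP_e5d384_lc.ConvexGeometryRows

open Finset

/-- `F` has a deterministic two-party protocol with exactly `c` bits. (Protocols exactly as in the
frozen statement S15531: `t` is the transcript so far, `owner t` says who speaks, and the answer is
a function of the transcript.) -/
def HasProtocol {X Y : Type} (F : X → Y → Bool) (c : ℕ) : Prop :=
  ∃ (owner : List Bool → Bool) (a : List Bool → X → Bool)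
      (b : List Bool → Y → Bool) (out : List Bool → Bool),
      ∀ x y, out (Nat.iterate
        (fun t : List Bool => t ++ [if owner t then a t x else b t y]) c []) = F x y

/-- the real rank of the communication matrix of `F` -/
noncomputable def realRank {X Y : Type} [Fintype X] [Fintype Y] (F : X → Y → Bool) : ℕ :=
  (Matrix.of (fun (x : X) (y : Y) => if F x y then (1 : ℝ) else 0)).rank

/-- The image of `P` is closed under intersection and locally a convex geometry: if `D ⊂ C` belong
to it, then so does `C \ {j}` for some `j ∈ C \ D`. -/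
structure LocallyConvex {Y : Type} {d : ℕ} (P : Y → Finset (Fin d)) : Prop where
  meet : ∀ y y', ∃ y'', P y'' = P y ∩ P y'
  step : ∀ y y', P y' ⊂ P y → ∃ j ∈ P y, j ∉ P y' ∧ ∃ y'', P y'' = (P y).erase j

/-- The pattern of the column `y` on the rows `s 0, ..., s (d - 1)`: the set of the `i` for which
the entry is different from the fixed bit `σ i`. -/
def pattern {X Y : Type} {d : ℕ} (F : X → Y → Bool) (s : Fin d → X) (σ : Fin d → Bool) (y : Y) :
    Finset (Fin d) := univ.filter fun i => F (s i) y ≠ σ i

/-- Every row of `F` is the sum of a linear combination of the functions `g 0, ..., g (k - 1)` and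
of a polynomial of degree at most `j` in the coordinates of `P y`. -/
def Perturbed {X Y : Type} {d k : ℕ} (F : X → Y → Bool) (P : Y → Finset (Fin d)) (j : ℕ)
    (g : Fin k → Y → ℝ) : Prop :=
  ∀ x, ∃ (b : Fin k → ℝ) (a : Finset (Fin d) → ℝ), (∀ S, j < S.card → a S = 0) ∧
    ∀ y, (if F x y then (1 : ℝ) else 0) = ∑ i, b i * g i y + ∑ S, if S ⊆ P y then a S else 0

lemma hasProtocol_of {X Y : Type} {F : X → Y → Bool} {c : ℕ}
    (h : Pool.Agent.Q174.TD.Prot F c Set.univ Set.univ) : HasProtocol F c := by
  obtain ⟨owner, a, b, out, h⟩ := h.protocol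
  exact ⟨owner, a, b, out, fun x y => h x (Set.mem_univ _) y (Set.mem_univ _)⟩

lemma locallyConvex_of_subsets {Y : Type} {d : ℕ} (P : Y → Finset (Fin d))
    (h : ∀ y, ∀ T ⊆ P y, ∃ y', P y' = T) : LocallyConvex P := by
  refine ⟨fun y y' => h y _ inter_subset_left, fun y y' hss => ?_⟩
  obtain ⟨j, hj, hj'⟩ := exists_of_ssubset hss
  exact ⟨j, hj, hj', h y _ (erase_subset _ _)⟩

lemma locallyConvex_of_ideals {Y : Type} {d : ℕ} (P : Y → Finset (Fin d))
    (r : Fin d → Fin d → Prop) (hanti : ∀ i j, r i j → r j i → i = j)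
    (htrans : ∀ i j k, r i j → r j k → r i k)
    (h : ∀ T : Finset (Fin d), (∃ y, P y = T) ↔ ∀ i ∈ T, ∀ j, r j i → j ∈ T) :
    LocallyConvex P := by
  refine ⟨fun y y' => (h _).2 fun i hi j hji => ?_, fun y y' hss => ?_⟩
  · have h1 := (h (P y)).1 ⟨y, rfl⟩ i (mem_inter.1 hi).1 j hji
    have h2 := (h (P y')).1 ⟨y', rfl⟩ i (mem_inter.1 hi).2 j hji
    exact mem_inter.2 ⟨h1, h2⟩
  · let r' : Fin d → Fin d → Prop := fun a b => r b a ∧ a ≠ b
    have : IsTrans (Fin d) r' := ⟨fun a b c hab hbc => ⟨htrans _ _ _ hbc.1 hab.1, by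
      rintro rfl
      exact hab.2 (hanti _ _ hbc.1 hab.1)⟩⟩
    have : Std.Irrefl r' := ⟨fun a ha => ha.2 rfl⟩
    have hwf : WellFounded r' := Finite.wellFounded_of_trans_of_irrefl r'
    obtain ⟨i₀, hi₀, hi₀'⟩ := exists_of_ssubset hss
    obtain ⟨j, hj, hmin⟩ := hwf.has_min {i | i ∈ P y ∧ i ∉ P y'} ⟨i₀, hi₀, hi₀'⟩
    refine ⟨j, hj.1, hj.2, (h _).2 fun i hi l hl => ?_⟩
    obtain ⟨hij, hiy⟩ := mem_erase.1 hi
    refine mem_erase.2 ⟨?_, (h (P y)).1 ⟨y, rfl⟩ i hiy l hl⟩
    rintro rfl
    by_cases hiy' : i ∈ P y'
    · exact hj.2 ((h (P y')).1 ⟨y', rfl⟩ i hiy' l hl)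
    · exact hmin i ⟨hiy, hiy'⟩ ⟨hl, hij⟩

theorem geo_of {X Y : Type} {d : ℕ} (F : X → Y → Bool) (s : Fin d → X) (σ : Fin d → Bool)
    (h : LocallyConvex (pattern F s σ)) (h1 : ∀ i, ∃ y, i ∈ pattern F s σ y)
    (h0 : ∀ i, ∃ y, i ∉ pattern F s σ y) :
    Run7.h515.LR.Geo fun y i => xor (F (s i) y) (σ i) := by
  have hm : ∀ i y, i ∈ pattern F s σ y ↔ xor (F (s i) y) (σ i) = true := by
    intro i y
    unfold pattern
    rw [mem_filter]
    cases F (s i) y <;> cases σ i <;> simp
  have hm0 : ∀ i y, i ∉ pattern F s σ y ↔ xor (F (s i) y) (σ i) = false := by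
    intro i y
    rw [hm]
    cases F (s i) y <;> cases σ i <;> simp
  refine ⟨fun y y' => ?_, fun y y' hle hne => ?_, fun i => ⟨?_, ?_⟩⟩
  · obtain ⟨y'', hy''⟩ := h.meet y y'
    refine ⟨y'', fun i => ?_⟩
    have := hm i y''
    rw [hy'', mem_inter, hm, hm] at this
    rw [Bool.eq_iff_iff, Bool.and_eq_true]
    exact this.symm
  · have hss : pattern F s σ y' ⊂ pattern F s σ y := by
      refine ⟨fun i hi => (hm i y).2 (hle i ((hm i y').1 hi)), fun hsub => ?_⟩
      obtain ⟨i, hi⟩ := hne
      apply hi
      rw [Bool.eq_iff_iff]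
      exact ⟨hle i, fun hh => (hm i y').1 (hsub ((hm i y).2 hh))⟩
    obtain ⟨j, hj, hj', y'', hy''⟩ := h.step y y' hss
    refine ⟨j, y'', (hm j y).1 hj, (hm0 j y').1 hj', fun i => ?_⟩
    have := hm i y''
    rw [hy'', mem_erase, hm] at this
    rw [Bool.eq_iff_iff, Bool.and_eq_true, decide_eq_true_eq]
    rw [← this]
    exact and_comm
  · obtain ⟨y, hy⟩ := h1 i
    exact ⟨y, (hm i y).1 hy⟩
  · obtain ⟨y, hy⟩ := h0 i
    exact ⟨y, (hm0 i y).1 hy⟩

/-- Let `F : X × Y → {0,1}` be a Boolean matrix.
(1) If `P : Y → Finset (Fin d)` is locally convex and the rows of `F` are, modulo the span of `k`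
functions, polynomials of degree at most `j` in the coordinates of `P y`, then `F` has a protocol with
`(j + 2) k + 1620 ⌈log₂ ((d + 1) ^ (2 j) + 3)⌉ ^ 6 + 2` bits.
(2) If the rank of `F` is at most `d + k`, where the patterns of the columns on some `d` rows
(complemented if necessary) are locally convex and no coordinate is constant, then `F` has a protocol
with `3 k + 1620 ⌈log₂ (d² + 3)⌉ ^ 6 + 2` bits.
(3) If the rank is at most `d + k` and `d` rows of `F` are shattered, then `F` has a protocol with
`3 k + 2 ⌈log₂ (d + 1)⌉ + 4` bits.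
(4) A family of sets is locally convex if it is closed under subsets, or if it is the family of the
ideals of a partial order. -/
theorem result {X Y : Type} [Fintype X] [Fintype Y] (F : X → Y → Bool) :
    (∀ (d j k : ℕ) (P : Y → Finset (Fin d)), LocallyConvex P →
      (∃ g : Fin k → Y → ℝ, Perturbed F P j g) →
      HasProtocol F ((j + 2) * k + (1620 * (Nat.clog 2 ((d + 1) ^ (2 * j) + 3)) ^ 6 + 2))) ∧
    (∀ (d k : ℕ) (s : Fin d → X) (σ : Fin d → Bool), LocallyConvex (pattern F s σ) →
      (∀ i, ∃ y, i ∈ pattern F s σ y) → (∀ i, ∃ y, i ∉ pattern F s σ y) →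
      realRank F ≤ d + k →
      HasProtocol F (3 * k + (1620 * (Nat.clog 2 (d * d + 3)) ^ 6 + 2))) ∧
    (∀ (d k : ℕ) (s : Fin d → X), (∀ T : Finset (Fin d), ∃ y, ∀ i, F (s i) y = true ↔ i ∈ T) →
      realRank F ≤ d + k →
      HasProtocol F (3 * k + (2 * Nat.clog 2 (d + 1) + 4))) ∧
    (∀ (d : ℕ) (P : Y → Finset (Fin d)), (∀ y, ∀ T ⊆ P y, ∃ y', P y' = T) → LocallyConvex P) ∧
    (∀ (d : ℕ) (P : Y → Finset (Fin d)) (r : Fin d → Fin d → Prop),
      (∀ i j, r i j → r j i → i = j) → (∀ i j k, r i j → r j k → r i k) →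
      (∀ T : Finset (Fin d), (∃ y, P y = T) ↔ ∀ i ∈ T, ∀ j, r j i → j ∈ T) →
      LocallyConvex P) := by
  refine ⟨?_, ?_, ?_, fun d P h => locallyConvex_of_subsets P h,
    fun d P r h1 h2 h3 => locallyConvex_of_ideals P r h1 h2 h3⟩
  · rintro d j k P hP ⟨g, hg⟩
    exact hasProtocol_of (Run7.h515.LR.prot_gen F ⟨hP.meet, hP.step⟩ j k g hg)
  · intro d k s σ hP h1 h0 hr
    exact hasProtocol_of (Run7.h515.LR.prot_main F s σ hr (geo_of F s σ hP h1 h0))
  · intro d k s hs hr
    refine hasProtocol_of (Run7.h515.LR.prot_cube F s (fun _ => false) hr fun p => ?_)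
    obtain ⟨y, hy⟩ := hs (univ.filter fun i => p i = true)
    refine ⟨y, fun i => ?_⟩
    have := hy i
    rw [mem_filter] at this
    rw [Bool.xor_false, Bool.eq_iff_iff, this]
    simp

end Pool.Agent.Results.MP_e5d384_lc.ConvexGeometryRows
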