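import Pool.Agent.Run7.h284.SR.LogRank

set_option autoImplicit false

/-!
# The log-rank conjecture: a square-root bound with the sign rank in place of the rank

Let `F : X → Y → Bool` (`X`, `Y` finite) be a function of sign rank at most `s`: there are vectors
`p x`, `q y` in `ℝ ^ s` such that `⟨p x, q y⟩ > 0` if `F x y` is true and `⟨p x, q y⟩ < 0` if
`F x y` is false. (The sign rank is at most `rank + 1`, and it can be much smaller.)

* For `0 < ε ≤ 1 / 2` every subrectangle `A × B` contains a rectangle `S × T` with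
  `|S| |T| ≥ ε ^ (70 √s) |A| |B|` on which `F` is constant up to a proportion `ε` of the entries.
* `D(F) ≤ 200 √s (1 + log₂ rank F) ^ 2`, where `D` is the deterministic communication complexity.

Proof. By an approximate form of Forster's theorem (obtained by maximising a determinant) one may
transform the vectors so that after normalisation the mean of `⟨p x, q y⟩ ^ 2` over `x` is at least
`1 / (2 s)` for every `y`. For independent Gaussian measures the pairs are weighted by
`exp (τ ⟨p x, q y⟩)`, `τ = u √(2 s)`; for one of the two values of `F` the pairs with this value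
outweigh the other ones by a factor `exp u`. Rounding the weights gives the rectangle, whose density
is `exp (- 7 τ)`. The second statement follows from the first one as in the papers of Gavinsky and
Lovett (few errors and small rank give an exactly monochromatic rectangle) and Nisan and Wigderson.
-/

namespace Pool.Agent.Results.MP_e5d384_lc.SignRankProtocols

open Run7.h284.SR Finset

/-- `F` has a deterministic two-party protocol with exactly `c` bits. (Protocols exactly as in the
frozen statement S15531: `t` is the transcript so far, `owner t` says who speaks, and the answer is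
a function of the transcript.) -/
def HasProtocol {X Y : Type} (F : X → Y → Bool) (c : ℕ) : Prop :=
  ∃ (owner : List Bool → Bool) (a : List Bool → X → Bool)
      (b : List Bool → Y → Bool) (out : List Bool → Bool),
      ∀ x y, out (Nat.iterate
        (fun t : List Bool => t ++ [if owner t then a t x else b t y]) c []) = F x y

/-- The real communication matrix of `F`. -/
noncomputable def commMatrix {X Y : Type} (F : X → Y → Bool) : Matrix X Y ℝ :=
  Matrix.of (fun (x : X) (y : Y) => if F x y then (1 : ℝ) else 0)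

/-- `F` has sign rank at most `s`. -/
def SignRankLE {X Y : Type} (F : X → Y → Bool) (s : ℕ) : Prop :=
  ∃ (p : X → Fin s → ℝ) (q : Y → Fin s → ℝ), ∀ x y,
    (F x y = true → 0 < ∑ i, p x i * q y i) ∧ (F x y = false → ∑ i, p x i * q y i < 0)

theorem eps_bound (ε σ : ℝ) (hε : 0 < ε) (hε2 : ε ≤ 1 / 2) (hσ : 1 ≤ σ) :
    ε ^ (70 * σ) ≤ Real.exp (-(7 * ((4 + Real.log (1 / ε)) * (1.4143 * σ)))) / 2 := by
  have h2 : 0.6931471803 < Real.log 2 := Real.log_two_gt_d9
  set l : ℝ := Real.log (1 / ε) with hl
  have hl2 : Real.log 2 ≤ l := Real.log_le_log (by norm_num) (by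
    rw [le_div_iff₀ hε]
    linarith)
  have e1 : Real.log ε = - l := by
    rw [hl, one_div, Real.log_inv, neg_neg]
  have e2 : Real.exp (-(7 * ((4 + l) * (1.4143 * σ)))) / 2 =
      Real.exp (-(7 * ((4 + l) * (1.4143 * σ))) - Real.log 2) := by
    rw [Real.exp_sub, Real.exp_log (by norm_num)]
  have hlog2 : Real.log 2 < 0.6931471808 := Real.log_two_lt_d9
  rw [e2, Real.rpow_def_of_pos hε, Real.exp_le_exp, e1]
  have h3 : 0.6931471803 ≤ l := h2.le.trans hl2
  have h4 : 0.6931471803 * σ ≤ l * σ := mul_le_mul_of_nonneg_right h3 (by linarith)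
  nlinarith

theorem result (X Y : Type) [Fintype X] [Fintype Y] (F : X → Y → Bool) (s : ℕ) (hs : 1 ≤ s)
    (h : SignRankLE F s) :
    (∀ ε : ℝ, 0 < ε → ε ≤ 1 / 2 → ∀ (A : Finset X) (B : Finset Y), A.Nonempty → B.Nonempty →
      ∃ (c : Bool) (S : Finset X) (T : Finset Y), S ⊆ A ∧ T ⊆ B ∧
        ε ^ (70 * Real.sqrt s) * ((A.card : ℝ) * B.card) < (S.card : ℝ) * T.card ∧
        (((S ×ˢ T).filter (fun z => F z.1 z.2 ≠ c)).card : ℝ) ≤ ε * ((S.card : ℝ) * T.card)) ∧
    (∃ c : ℕ, HasProtocol F c ∧
      (c : ℝ) ≤ 200 * Real.sqrt s * (1 + Real.logb 2 ((commMatrix F).rank : ℝ)) ^ 2) := by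
  classical
  obtain ⟨p, q, hpq⟩ := h
  have hs1 : (1 : ℝ) ≤ s := by exact_mod_cast hs
  have hsq : 1 ≤ Real.sqrt s := by rwa [Real.one_le_sqrt]
  constructor
  · intro ε hε hε2 A B hA hB
    have hl : 0 ≤ Real.log (1 / ε) := Real.log_nonneg (by
      rw [le_div_iff₀ hε]
      linarith)
    obtain ⟨c, S, hS, T, hT, hST⟩ := rect F p q A B hA hB (fun x _ y _ => (hpq x y).1)
      (fun x _ y _ => (hpq x y).2) (4 + Real.log (1 / ε)) (by linarith)
    rw [sum_errors] at hST
    have hfil : (∑ x ∈ S, (T.filter (fun y => F x y ≠ c)).card) =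
        ((S ×ˢ T).filter (fun z => F z.1 z.2 ≠ c)).card := by
      rw [card_filter, sum_product]
      exact sum_congr rfl fun x _ => card_filter _ _
    rw [hfil] at hST
    set err : ℕ := ((S ×ˢ T).filter (fun z => F z.1 z.2 ≠ c)).card with herr
    have herr0 : (0 : ℝ) ≤ err := Nat.cast_nonneg _
    have hexp : Real.exp (4 + Real.log (1 / ε)) = Real.exp 4 / ε := by
      rw [Real.exp_add, Real.exp_log (by positivity), mul_one_div]
    have he4 : 3 ≤ Real.exp 4 := by
      have := Real.add_one_le_exp (4 : ℝ)
      linarith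
    have hsqrt2 : Real.sqrt (2 * s) ≤ 1.4143 * Real.sqrt s := by
      rw [Real.sqrt_mul (by norm_num)]
      refine mul_le_mul_of_nonneg_right ?_ (by linarith)
      rw [Real.sqrt_le_left (by norm_num)]
      norm_num
    have hApos : (0 : ℝ) < A.card := by exact_mod_cast hA.card_pos
    have hBpos : (0 : ℝ) < B.card := by exact_mod_cast hB.card_pos
    have hb : ε ^ (70 * Real.sqrt s) ≤
        Real.exp (-(7 * ((4 + Real.log (1 / ε)) * Real.sqrt (2 * s)))) / 2 := by
      refine (eps_bound ε (Real.sqrt s) hε hε2 hsq).trans ?_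
      refine div_le_div_of_nonneg_right (Real.exp_le_exp.2 ?_) (by norm_num)
      have : (4 + Real.log (1 / ε)) * Real.sqrt (2 * s) ≤
          (4 + Real.log (1 / ε)) * (1.4143 * Real.sqrt s) :=
        mul_le_mul_of_nonneg_left hsqrt2 (by linarith)
      linarith
    have hcoef : 0 ≤ Real.exp (4 + Real.log (1 / ε)) / 3 * err := mul_nonneg (by positivity) herr0
    have hpos : 0 < Real.exp (-(7 * ((4 + Real.log (1 / ε)) * Real.sqrt (2 * s)))) / 2 *
      ((A.card : ℝ) * B.card) := by positivity
    refine ⟨c, S, T, hS, hT, ?_, ?_⟩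
    · have := mul_le_mul_of_nonneg_right hb (show (0 : ℝ) ≤ (A.card : ℝ) * B.card by positivity)
      linarith
    · have h1 : Real.exp 4 / ε / 3 * err < (S.card : ℝ) * T.card := by
        rw [hexp] at hcoef hST
        linarith
      have h2 : 1 / ε * err ≤ Real.exp 4 / ε / 3 * err := by
        refine mul_le_mul_of_nonneg_right ?_ herr0
        rw [div_div, div_le_div_iff₀ hε (by positivity)]
        nlinarith
      have h3 : 1 / ε * err ≤ (S.card : ℝ) * T.card := by linarith
      rw [one_div, inv_mul_le_iff₀ hε] at h3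
      exact h3
  · obtain ⟨c, hc, hc2⟩ := main F s hs p q (fun x y => (hpq x y).1) (fun x y => (hpq x y).2)
    exact ⟨c, hc, hc2⟩

end Pool.Agent.Results.MP_e5d384_lc.SignRankProtocols
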