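import Pool.Agent.Run7.h671.Dens
import Pool.Agent.TH404.Tor.Final

/-!
# The log-rank conjecture for matrices whose rows form a set of small doubling
-/

set_option autoImplicit false

namespace Pool.Agent.Results.MP_e5d384_lc.SmallDoubling

open Pool.Agent.Q174.TD Pool.Agent.Run7.h671 Finset
open scoped Pointwise

/-- `F` has a deterministic two-party protocol with exactly `c` bits. (Protocols exactly as in the
frozen statement S15531: `t` is the transcript so far, `owner t` says who speaks, and the answer is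
a function of the transcript.) -/
def HasProtocol {X Y : Type} (F : X → Y → Bool) (c : ℕ) : Prop :=
  ∃ (owner : List Bool → Bool) (a : List Bool → X → Bool)
      (b : List Bool → Y → Bool) (out : List Bool → Bool),
      ∀ x y, out (Nat.iterate
        (fun t : List Bool => t ++ [if owner t then a t x else b t y]) c []) = F x y

/-- the real rank of the communication matrix of `F` -/
noncomputable def realRank {X Y : Type} [Fintype X] [Fintype Y] (F : X → Y → Bool) : ℕ :=
  (Matrix.of (fun (x : X) (y : Y) => if F x y then (1 : ℝ) else 0)).rank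

/-- the set of the rows of `F` in the part `i` -/
def Rows {X Y : Type} {t : ℕ} (F : X → Y → Bool) (part : X → Fin t) (i : Fin t) :
    Set (Y → Bool) := {g | ∃ x, part x = i ∧ g = F x}

/-- the set of the sums modulo 2 of two rows of `F` in the part `i` -/
def SumRows {X Y : Type} {t : ℕ} (F : X → Y → Bool) (part : X → Fin t) (i : Fin t) :
    Set (Y → Bool) := {g | ∃ x x', part x = i ∧ part x' = i ∧ g = fun y => xor (F x y) (F x' y)}

/-- Boolean vectors as vectors over the field with two elements -/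
def vec {Y : Type} (g : Y → Bool) : Y → ZMod 2 := fun y => if g y then 1 else 0

lemma vec_injective {Y : Type} : Function.Injective (vec (Y := Y)) := by
  intro g h hgh
  funext y
  have := congrFun hgh y
  unfold vec at this
  cases hg : g y <;> cases hh : h y <;> simp [hg, hh] at this ⊢

lemma vec_xor {Y : Type} (g h : Y → Bool) : vec (fun y => xor (g y) (h y)) = vec g + vec h := by
  funext y
  show (if xor (g y) (h y) then (1 : ZMod 2) else 0) = (if g y then 1 else 0) + (if h y then 1 else 0)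
  cases g y <;> cases h y <;> decide

/-- one part -/
lemma one_part {X Y : Type} [Fintype X] [Fintype Y] (F : X → Y → Bool) {t : ℕ}
    (part : X → Fin t) (i : Fin t) (K : ℝ) (hK : 1 ≤ K)
    (h : ((SumRows F part i).ncard : ℝ) ≤ K * ((Rows F part i).ncard : ℝ)) (L : ℕ)
    (hL : (2 * K) ^ 82010 ≤ ((2 ^ L : ℕ) : ℝ)) :
    ∃ (τ : X → ℕ) (q : ℕ → Y → ℕ), (∀ x, τ x < 2 ^ L) ∧
      (∀ m y, q m y < 2 ^ (1 + Nat.clog 2 (realRank F + 1) + L)) ∧
      ∀ x y y', part x = i → q (τ x) y = q (τ x) y' → F x y = F x y' := by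
  classical
  by_cases hne : ∃ x, part x = i
  swap
  · refine ⟨fun _ => 0, fun _ _ => 0, fun _ => by positivity, fun _ _ => by positivity, ?_⟩
    intro x y y' hx
    exact absurd ⟨x, hx⟩ hne
  obtain ⟨x₀, hx₀⟩ := hne
  haveI : Nonempty X := ⟨x₀⟩
  let A : Finset (Y → ZMod 2) := (univ.filter fun x => part x = i).image (fun x => vrow F x)
  have hA1 : (A : Set (Y → ZMod 2)) = vec '' (Rows F part i) := by
    ext v
    simp only [A, coe_image, coe_filter, mem_univ, true_and, Set.mem_image, Rows]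
    constructor
    · rintro ⟨x, hx, rfl⟩
      exact ⟨F x, ⟨x, hx, rfl⟩, rfl⟩
    · rintro ⟨_, ⟨x, hx, rfl⟩, rfl⟩
      exact ⟨x, hx, rfl⟩
  have hA2 : ((A + A : Finset (Y → ZMod 2)) : Set (Y → ZMod 2)) = vec '' (SumRows F part i) := by
    rw [coe_add, hA1]
    ext v
    constructor
    · rintro ⟨_, ⟨_, ⟨x, hx, rfl⟩, rfl⟩, _, ⟨_, ⟨x', hx', rfl⟩, rfl⟩, rfl⟩
      exact ⟨_, ⟨x, x', hx, hx', rfl⟩, vec_xor _ _⟩
    · rintro ⟨_, ⟨x, x', hx, hx', rfl⟩, rfl⟩
      exact ⟨_, ⟨F x, ⟨x, hx, rfl⟩, rfl⟩, _, ⟨F x', ⟨x', hx', rfl⟩, rfl⟩, (vec_xor _ _).symm⟩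
  have hA3 : ((A + A).card : ℝ) ≤ K * A.card := by
    have e1 : A.card = (Rows F part i).ncard := by
      rw [← Set.ncard_coe_finset, hA1, Set.ncard_image_of_injective _ vec_injective]
    have e2 : (A + A).card = (SumRows F part i).ncard := by
      rw [← Set.ncard_coe_finset, hA2, Set.ncard_image_of_injective _ vec_injective]
    rw [e1, e2]
    exact h
  have hAne : A.Nonempty := ⟨vrow F x₀, mem_image_of_mem _ (by simpa using hx₀)⟩
  obtain ⟨H, T, hHfin, hHcard, hTcard, hcov⟩ := Pool.Agent.TH404.Tor.upper (Γ := Y → ZMod 2) 2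
    (by norm_num) (fun v => by
      funext y
      show 2 • v y = 0
      rcases zm2 (v y) with h1 | h1 <;> rw [h1] <;> rfl) K A hAne hA3
  have hTL : T.card ≤ 2 ^ L := by
    have e1 : 41005 * (Nat.log 2 2 + 1) = 82010 := by
      have : Nat.log 2 2 = 1 := by
        rw [Nat.log_eq_one_iff]
        norm_num
      rw [this]
    rw [e1] at hTcard
    exact_mod_cast hTcard.trans hL
  -- the largest coset
  obtain ⟨a₀, ha₀⟩ := hAne
  obtain ⟨s₀, hs₀, -⟩ := hcov a₀ ha₀
  obtain ⟨t₀, ht₀, hmax⟩ := Finset.exists_max_image T (fun s => (A.filter fun a => a - s ∈ H).card)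
    ⟨s₀, hs₀⟩
  have hAle : A.card ≤ T.card * (A.filter fun a => a - t₀ ∈ H).card := by
    have h1 : A ⊆ T.biUnion (fun s => A.filter fun a => a - s ∈ H) := by
      intro a ha
      obtain ⟨s, hs, has⟩ := hcov a ha
      exact mem_biUnion.2 ⟨s, hs, mem_filter.2 ⟨ha, has⟩⟩
    refine (card_le_card h1).trans (card_biUnion_le.trans ?_)
    refine (Finset.sum_le_card_nsmul T _ _ hmax).trans (le_of_eq ?_)
    rw [smul_eq_mul]
  let B : Finset (Y → ZMod 2) := (A.filter fun a => a - t₀ ∈ H).image (fun a => a - t₀)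
  have hBc : B.card = (A.filter fun a => a - t₀ ∈ H).card :=
    card_image_of_injective _ (sub_left_injective)
  have hBH : ∀ b ∈ B, b ∈ H := by
    intro b hb
    obtain ⟨a, ha, rfl⟩ := mem_image.1 hb
    exact (mem_filter.1 ha).2
  have hBx : ∀ b ∈ B, ∃ x, vrow F x = t₀ + b := by
    intro b hb
    obtain ⟨a, ha, rfl⟩ := mem_image.1 hb
    obtain ⟨x, -, rfl⟩ := mem_image.1 (mem_filter.1 ha).1
    exact ⟨x, by abel⟩
  -- the classes of the columns
  let S : Set (H → ZMod 2) := Set.range (fun y => fun v : H => (v : Y → ZMod 2) y)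
  have hSfin : Finite S := Set.finite_range _
  haveI : Fintype S := Fintype.ofFinite S
  have hg : ∀ s : S, ∃ y, (fun v : H => (v : Y → ZMod 2) y) = s.1 := fun s => s.2
  choose g hg using hg
  have hginj : Function.Injective g := by
    intro s s' hss
    apply Subtype.ext
    rw [← hg s, ← hg s', hss]
  let Z : Finset Y := univ.image g
  have hZc : Z.card = Nat.card S := by
    rw [card_image_of_injective _ hginj, card_univ, Nat.card_eq_fintype_card]
  have hZ : ∀ y ∈ Z, ∀ y' ∈ Z, y ≠ y' → ∃ v ∈ H, v y ≠ v y' := by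
    intro y hy y' hy' hyy
    obtain ⟨s, -, rfl⟩ := mem_image.1 hy
    obtain ⟨s', -, rfl⟩ := mem_image.1 hy'
    by_contra hcon
    push Not at hcon
    apply hyy
    congr 1
    apply Subtype.ext
    rw [← hg s, ← hg s']
    funext v
    exact hcon v.1 v.2
  have hd := dens H B hBH Z hZ
  have hfr := finrank_rch F t₀ B hBx (Z : Set Y)
  have hBpos : 0 < B.card := by
    rcases Nat.eq_zero_or_pos B.card with h0 | h0
    · rw [hBc] at h0
      rw [h0, mul_zero] at hAle
      have : 0 < A.card := card_pos.2 ⟨a₀, ha₀⟩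
      omega
    · exact h0
  have hn : Nat.card S ≤ (realRank F + 1) * 2 ^ L := by
    have h1 : Nat.card S * B.card ≤ ((realRank F + 1) * 2 ^ L) * B.card := by
      rw [← hZc]
      calc Z.card * B.card ≤ Module.finrank ℝ (Submodule.span ℝ (rch B '' (Z : Set Y))) *
            Nat.card H := hd
        _ ≤ (realRank F + 1) * A.card := Nat.mul_le_mul hfr hHcard
        _ ≤ (realRank F + 1) * (T.card * B.card) := by
            rw [hBc]
            exact Nat.mul_le_mul_left _ hAle
        _ ≤ (realRank F + 1) * (2 ^ L * B.card) :=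
            Nat.mul_le_mul_left _ (Nat.mul_le_mul_right _ hTL)
        _ = ((realRank F + 1) * 2 ^ L) * B.card := by ring
    exact Nat.le_of_mul_le_mul_right h1 hBpos
  -- the indices
  let eT := T.equivFin
  let eS := Finite.equivFin S
  have hτ : ∀ x, ∃ m : Fin T.card, part x = i → vrow F x - (eT.symm m).1 ∈ H := by
    intro x
    by_cases hx : part x = i
    · obtain ⟨s, hs, hs'⟩ := hcov (vrow F x) (mem_image_of_mem _ (by simpa using hx))
      refine ⟨eT ⟨s, hs⟩, fun _ => ?_⟩
      rw [Equiv.symm_apply_apply]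
      exact hs'
    · exact ⟨eT ⟨s₀, hs₀⟩, fun h => absurd h hx⟩
  choose τ hτ using hτ
  refine ⟨fun x => τ x, fun m y => 2 * (eS ⟨fun v : H => (v : Y → ZMod 2) y, y, rfl⟩ : ℕ) +
    (if hm : m < T.card then (if (eT.symm ⟨m, hm⟩).1 y = 0 then 0 else 1) else 0), ?_, ?_, ?_⟩
  · intro x
    exact lt_of_lt_of_le (τ x).2 hTL
  · intro m y
    have h1 : (eS ⟨fun v : H => (v : Y → ZMod 2) y, y, rfl⟩ : ℕ) < Nat.card S :=
      (eS ⟨fun v : H => (v : Y → ZMod 2) y, y, rfl⟩).2
    have h2 : (if hm : m < T.card then (if (eT.symm ⟨m, hm⟩).1 y = 0 then 0 else 1) else 0) < 2 := by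
      split_ifs <;> norm_num
    have h3 : (realRank F + 1) * 2 ^ L ≤ 2 ^ (Nat.clog 2 (realRank F + 1) + L) := by
      rw [pow_add]
      exact Nat.mul_le_mul_right _ (Nat.le_pow_clog (by norm_num) _)
    have h4 : 2 ^ (1 + Nat.clog 2 (realRank F + 1) + L) =
        2 * 2 ^ (Nat.clog 2 (realRank F + 1) + L) := by
      rw [add_assoc, pow_add, pow_one]
    rw [h4]
    dsimp only
    omega
  · intro x y y' hx hq
    have hm : (τ x : ℕ) < T.card := (τ x).2
    simp only [hm, dif_pos] at hq
    have h1 : (if (eT.symm (τ x)).1 y = 0 then 0 else 1) < 2 := by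
      split_ifs <;> norm_num
    have h2 : (if (eT.symm (τ x)).1 y' = 0 then 0 else 1) < 2 := by
      split_ifs <;> norm_num
    have h3 : (eS ⟨fun v : H => (v : Y → ZMod 2) y, y, rfl⟩ : ℕ) =
        (eS ⟨fun v : H => (v : Y → ZMod 2) y', y', rfl⟩ : ℕ) := by
      have e1 : (⟨(τ x : ℕ), hm⟩ : Fin T.card) = τ x := rfl
      rw [e1] at hq
      omega
    have h4 : (if (eT.symm (τ x)).1 y = 0 then 0 else 1) =
        (if (eT.symm (τ x)).1 y' = 0 then 0 else 1) := by
      have e1 : (⟨(τ x : ℕ), hm⟩ : Fin T.card) = τ x := rfl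
      rw [e1] at hq
      omega
    have h5 := eS.injective (Fin.ext h3)
    have h6 : (vrow F x - (eT.symm (τ x)).1) y = (vrow F x - (eT.symm (τ x)).1) y' :=
      congrFun (Subtype.ext_iff.1 h5) ⟨_, hτ x hx⟩
    have h7 : (eT.symm (τ x)).1 y = (eT.symm (τ x)).1 y' := by
      rcases zm2 ((eT.symm (τ x)).1 y) with h8 | h8 <;>
        rcases zm2 ((eT.symm (τ x)).1 y') with h9 | h9 <;> rw [h8, h9] at h4 ⊢ <;>
        simp at h4
    rw [Pi.sub_apply, Pi.sub_apply, h7] at h6
    have h10 : vrow F x y = vrow F x y' := sub_left_injective h6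
    unfold vrow at h10
    cases h11 : F x y <;> cases h12 : F x y' <;> simp [h11, h12] at h10 ⊢

/-- **The log-rank conjecture for matrices with small row doubling.** Let the rows of a
Boolean matrix `F` be divided into `t` parts, and suppose that in each part the number of sums modulo
2 of two rows is at most `K` times the number of rows. Then `F` has a deterministic protocol with at
most `log₂ (rank F + 1) + log₂ t + 164020 log₂ (2 K) + 6` bits. -/
theorem result (X Y : Type) [Fintype X] [Fintype Y] (F : X → Y → Bool) (t : ℕ)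
    (part : X → Fin t) (K : ℝ) (hK : 1 ≤ K)
    (h : ∀ i, ((SumRows F part i).ncard : ℝ) ≤ K * ((Rows F part i).ncard : ℝ)) :
    ∃ c : ℕ, HasProtocol F c ∧
      (c : ℝ) ≤ Real.logb 2 (realRank F + 1) + Real.logb 2 t + 164020 * Real.logb 2 (2 * K) + 6 := by
  classical
  have hK0 : (0 : ℝ) < 2 * K := by linarith
  have hlog : 0 ≤ Real.logb 2 (2 * K) := Real.logb_nonneg (by norm_num) (by linarith)
  obtain ⟨L, hLdef⟩ : ∃ L : ℕ, L = ⌈82010 * Real.logb 2 (2 * K)⌉₊ := ⟨_, rfl⟩
  have hL1 : (L : ℝ) ≤ 82010 * Real.logb 2 (2 * K) + 1 := by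
    rw [hLdef]
    exact (Nat.ceil_lt_add_one (by positivity)).le
  have hL2 : (2 * K) ^ 82010 ≤ ((2 ^ L : ℕ) : ℝ) := by
    have h1 : 82010 * Real.logb 2 (2 * K) ≤ L := by
      rw [hLdef]
      exact Nat.le_ceil _
    have h2 : Real.logb 2 ((2 * K) ^ 82010) ≤ (L : ℝ) := by
      rw [Real.logb_pow]
      push_cast
      exact h1
    rw [Real.logb_le_iff_le_rpow (by norm_num) (by positivity), Real.rpow_natCast] at h2
    push_cast
    exact h2
  have hpart := fun i => one_part F part i K hK (h i) L hL2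
  choose τ q hτ hq hF using hpart
  have hP : Prot F (1 + (1 + Nat.clog 2 (realRank F + 1) + L) + L + Nat.clog 2 t)
      Set.univ Set.univ := by
    apply Prot.alice_index (Nat.clog 2 t) (fun x => (part x : ℕ)) 0
    · intro x _
      refine ⟨Nat.zero_le _, ?_⟩
      rw [zero_add]
      exact lt_of_lt_of_le (part x).2 (Nat.le_pow_clog (by norm_num) t)
    · intro i
      by_cases hi : i < t
      · apply Prot.alice_index L (τ ⟨i, hi⟩) 0
        · intro x _
          exact ⟨Nat.zero_le _, by rw [zero_add]; exact hτ _ x⟩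
        · intro m
          apply Prot.bob_index _ (q ⟨i, hi⟩ m) 0
          · intro y _
            exact ⟨Nat.zero_le _, by rw [zero_add]; exact hq _ m y⟩
          · intro n
            apply prot_simple
            right
            rintro x ⟨⟨-, hx⟩, hx'⟩ y ⟨-, hy⟩ y' ⟨-, hy'⟩
            have hx1 : part x = ⟨i, hi⟩ := Fin.ext hx
            have hx2 : τ ⟨i, hi⟩ x = m := hx'
            apply hF ⟨i, hi⟩ x y y' hx1
            rw [hx2]
            exact Eq.trans hy (Eq.symm hy')
      · apply Prot.const _ _ _ true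
        rintro x ⟨-, hx⟩
        exfalso
        apply hi
        have : (part x : ℕ) = i := hx
        rw [← this]
        exact (part x).2
  obtain ⟨owner, a, b, out, h⟩ := hP.protocol
  refine ⟨_, ⟨owner, a, b, out, fun x y => h x (Set.mem_univ _) y (Set.mem_univ _)⟩, ?_⟩
  have hl : ∀ n : ℕ, (Nat.clog 2 (n + 1) : ℝ) ≤ Real.logb 2 ((n + 1 : ℕ) : ℝ) + 1 := by
    intro n
    have h1 : (Nat.clog 2 (n + 1)) = ⌈Real.logb 2 ((n + 1 : ℕ) : ℝ)⌉₊ := by
      have := Real.natCeil_logb_natCast 2 (n + 1)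
      push_cast at this ⊢
      exact this.symm
    rw [h1]
    exact (Nat.ceil_lt_add_one (Real.logb_nonneg (by norm_num)
      (by push_cast; linarith [Nat.cast_nonneg (α := ℝ) n]))).le
  have h1 := hl (realRank F)
  have h2 : (Nat.clog 2 t : ℝ) ≤ Real.logb 2 (t : ℝ) + 1 := by
    rcases t with _ | n
    · simp
    · exact hl n
  push_cast at h1 ⊢
  linarith

end Pool.Agent.Results.MP_e5d384_lc.SmallDoubling
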